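import Pool.Agent.Y472.G.Defs
import Pool.Agent.TH563.UV.Geo
import Pool.Agent.Y482.Chi.Defs

/-!
# Links on Conway's polyhedra `(2 k)*` with arborescent tangles: definitions and statements

The twist regions of a closed 3-braid (a ring of `n = 2 k` vertices) are replaced by arborescent
tangles (`Tb` of `TH563.UV`): at the ring vertex number `j` there is a rooted tree, its root has the
weight `a_j` (number of half twists) and at most `D` children.  The functions of the children are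
collected in one entire even function.
-/

set_option autoImplicit false

namespace Pool.Agent.Y481.DR

open Finset Filter Topology Metric
open Pool.Agent.W711.HT hiding XX
open Pool.Agent.Y472
open Pool.Agent.Y481 (itI cw)
open Pool.Agent.TH563.UV (Tb op XX PB AB)
open Pool.Agent.W719.AR (Fl)
open Pool.Agent.H550R3.Jones (crossP crossN gen rep tail)
open scoped Real

/-! ### Vertices and traces -/

/-- a vertex of the ring: its weight, and the product of the functions of its children -/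
abbrev Vx : Type := ℤ × (ℕ → ℂ → ℂ)

/-- the weights -/
def wl (ls : List (Vx × Vx)) : List (ℤ × ℤ) := ls.map fun p => (p.1.1, p.2.1)

/-- the functions of the children of the vertex number `j` -/
def vy (ls : List (Vx × Vx)) (j : ℕ) : ℕ → ℂ → ℂ :=
  ((ls.map fun p => [p.1.2, p.2.2]).flatten).getD j fun _ _ => 1

/-- all functions are entire and even -/
def AnL (ls : List (Vx × Vx)) : Prop :=
  ∀ p ∈ ls, (∀ N, Differentiable ℂ (p.1.2 N)) ∧ (∀ N, Differentiable ℂ (p.2.2 N)) ∧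
    (∀ N ψ, p.1.2 N (-ψ) = p.1.2 N ψ) ∧ (∀ N ψ, p.2.2 N (-ψ) = p.2.2 N ψ)

/-- entire, even, and of subexponential growth near the real axis -/
structure SubE (Y : ℕ → ℂ → ℂ) : Prop where
  an : ∀ N, Differentiable ℂ (Y N)
  ev : ∀ N ψ, Y N (-ψ) = Y N ψ
  gr : ∀ ε : ℝ, 0 < ε → ∀ᶠ N : ℕ in atTop, ∀ ψ : ℂ, |ψ.re| ≤ π → |ψ.im| ≤ 1 / N →
    ‖Y N ψ‖ ≤ Real.exp (N * ε)

/-- all functions are of this kind -/
def SubL (ls : List (Vx × Vx)) : Prop := ∀ p ∈ ls, SubE p.1.2 ∧ SubE p.2.2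

/-- the product of all functions -/
noncomputable def YP (ls : List (Vx × Vx)) (N : ℕ) (ψ : ℕ → ℂ) : ℂ :=
  ∏ j ∈ range (2 * ls.length), vy ls j N (ψ j)

/-- the matrix coefficients of a vertex (`cJ` with the function of the children) -/
noncomputable def cV (N : ℕ) (V : Vx) (i j : ℕ) : ℂ :=
  (-1) ^ (N - 1 - j + i) / (2 * π) *
    upp (1 / N) fun ψ => Ea V.1 N ψ * V.2 N ψ * Rp N (N - 1 - j) ψ * Rp N i ψ * kr N ψ

/-- the matrix of an odd vertex -/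
noncomputable def MAV (N : ℕ) (V : Vx) : Matrix (Fin N) (Fin N) ℂ :=
  fun i j => if j ≤ i then cV N V j i else 0

/-- the matrix of an even vertex -/
noncomputable def MBV (N : ℕ) (χ : ℂ) (V : Vx) : Matrix (Fin N) (Fin N) ℂ :=
  fun i j => if i ≤ j then (∏ t ∈ Ioc (i : ℕ) j, Ph N χ t) * cV N V i j else 0

/-- the trace (`Tf`) -/
noncomputable def TV (N : ℕ) (ls : List (Vx × Vx)) (χ : ℂ) : ℂ :=
  ((ls.map fun p => MAV N p.1 * MBV N χ p.2).prod).trace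

/-- the trace on the indices `≥ N - p` (`Thi`) -/
noncomputable def ThV (N : ℕ) (ls : List (Vx × Vx)) (p : ℕ) : ℂ :=
  (pH N p * (ls.map fun q => MAV N q.1 * pH N p * MBV N (2 * π * p / N) q.2 * pH N p).prod).trace

/-- the main part of the trace (`Tm`) -/
noncomputable def TmV (N : ℕ) (ls : List (Vx × Vx)) (χ : ℂ) : ℂ :=
  ((ls.map fun q => Matrix.diagonal (fun i : Fin N => if N - 1 - (N - 1) / 2 ≤ (i : ℕ) then (1 : ℂ) else 0) *
    MAV N q.1 * Matrix.diagonal (fun i : Fin N => if (i : ℕ) ≤ (N - 1) / 2 then (1 : ℂ) else 0) *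
    MBV N χ q.2).prod).trace

/-- the iterated integral (`XN`) -/
noncomputable def XV (ls : List (Vx × Vx)) (N : ℕ) (χ : ℂ) : ℂ :=
  itI (cw (wl ls)) N (2 * ls.length) (fun ψ => Wk (2 * ls.length) N χ ψ * YP ls N ψ) 0

/-- the exact expression for the invariant -/
noncomputable def ES (N : ℕ) (ls : List (Vx × Vx)) (m : ℤ) : ℂ :=
  ∑ p ∈ range N, deriv (fun χ => wE N m χ * TV N ls χ) (2 * π * p / N) -
    2 * Complex.I * m * N * ∑ p ∈ range N, wE N m (2 * π * p / N) * ThV N ls p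

/-! ### Part A: the exact formula -/

/-- divided differences of `P` at the nodes `uu`, `l = -exp ε`, have the limits `c i j` -/
def GDP (N : ℕ) (P : Polynomial ℂ) (c : ℕ → ℕ → ℂ) : Prop :=
  ∀ i j : ℕ, i ≤ j → j < N → ∃ G : ℂ → ℂ, DifferentiableAt ℂ G 0 ∧ G 0 = c i j ∧
    ∀ᶠ ε in 𝓝[≠] (0 : ℂ), G ε = ∑ k ∈ Icc i j,
      Lagrange.nodalWeight (Icc i j) (uu (vN N) (-Complex.exp ε)) k *
        P.eval (uu (vN N) (-Complex.exp ε) k)

/-- the operator of a ring whose vertices are polynomials of the Casimir operator -/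
noncomputable def opP (w l : ℂ) (ps : List (Polynomial ℂ × Polynomial ℂ)) : V3 →ₗ[ℂ] V3 :=
  (ps.map fun p => L12 (Polynomial.aeval (cas w l) p.1) *
    L23 (Polynomial.aeval (cas w l) p.2)).prod

/-- the quantum trace -/
noncomputable def JP (N : ℕ) (w l : ℂ) (m : ℤ) (ps : List (Polynomial ℂ × Polynomial ℂ)) : ℂ :=
  ∑ q ∈ range N, ∑ s ∈ range N, KK w l q * KK w l s *
    (fullt w l m * opP w l ps) (io (dl q s)) 0 q s

/-- the divided differences of a polynomial -/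
noncomputable def gdP (w l : ℂ) (P : Polynomial ℂ) (i j : ℕ) : ℂ :=
  ∑ k ∈ Icc i j, Lagrange.nodalWeight (Icc i j) (uu w l) k * P.eval (uu w l k)

/-- the matrices of the vertices on the split basis -/
noncomputable def MAP (N : ℕ) (w l : ℂ) (P : Polynomial ℂ) : Matrix (Fin N) (Fin N) ℂ :=
  fun i j => if j ≤ i then gdP w l P j i else 0

noncomputable def MBP (N : ℕ) (w l : ℂ) (D : ℕ) (P : Polynomial ℂ) : Matrix (Fin N) (Fin N) ℂ :=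
  fun i j => if i ≤ j then (∏ t ∈ Ioc (i : ℕ) j, ph w l D t) * gdP w l P i j else 0

/-- the trace on the space of highest weight vectors -/
noncomputable def trP (N : ℕ) (w l : ℂ) (ps : List (Polynomial ℂ × Polynomial ℂ)) (D : ℕ) : ℂ :=
  (pI N D * (ps.map fun p => MAP N w l p.1 * pI N D * MBP N w l D p.2 * pI N D).prod).trace

/-- TRP: the generic trace formula for polynomials of the Casimir operator -/
def S_TRP : Prop := ∀ (N : ℕ) (w l : ℂ), Rt N w → Gl l →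
  ∀ (ps : List (Polynomial ℂ × Polynomial ℂ)) (m : ℤ),
  JP N w l m ps = l ^ (2 * N) * cb (l ^ N) / (cb l * cb (l ^ (3 * N))) *
    ∑ D ∈ range (2 * N - 1), cb (l ^ 3 * w ^ (-2 - 2 * (D : ℤ))) * ta w l D ^ m * trP N w l ps D

/-- a polynomial, the vertex, and a constant -/
abbrev PV : Type := Polynomial ℂ × Vx × ℂ

/-- EXP: the exact formula for polynomials of the Casimir operator -/
def S_EXP : Prop := S_TRP → ∀ (N : ℕ) (ds : List (PV × PV)) (m : ℤ), 2 ≤ N → ds ≠ [] →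
  (∀ d ∈ ds, GDP N d.1.1 (fun i j => d.1.2.2 * cV N d.1.2.1 i j) ∧
    GDP N d.2.1 (fun i j => d.2.2.2 * cV N d.2.2.1 i j)) →
  ‖JP N (vN N) (-1) m (ds.map fun d => (d.1.1, d.2.1))‖ =
    (ds.map fun d => ‖d.1.2.2‖ * ‖d.2.2.2‖).prod *
      ‖ES N (ds.map fun d => (d.1.2.1, d.2.2.1)) m‖

/-- the vertex of a tree whose root has no circle -/
noncomputable def tv (t : Tb) : Vx := (t.wt, XX t)

/-- TPL: the operator of a tree at the root of unity is a polynomial of the Casimir operator, and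
its divided differences -/
def S_TPL : Prop := ∀ (t : Tb) (N : ℕ), 2 ≤ N → t.bl = false → ∃ (P : Polynomial ℂ) (C : ℂ),
  ‖C‖ = ((N : ℝ) ^ 2 / (2 * π)) ^ t.ne ∧
  mx N (Polynomial.aeval (cas (vN N) (-1)) P) = op N (vN N) t ∧
  GDP N P (fun i j => C * cV N (tv t) i j)

/-- the operator of the ring of trees -/
noncomputable def opD (N : ℕ) (v : ℂ) (ts : List (Tb × Tb)) :
    Matrix (Fin 3 → Fin N) (Fin 3 → Fin N) ℂ :=
  (ts.map fun p => gen (op N v p.1) 3 0 * gen (op N v p.2) 3 1).prod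

/-- the invariant of the ring of trees with `m` full twists -/
noncomputable def JD (ts : List (Tb × Tb)) (m : ℤ) (N : ℕ) (v : ℂ) : ℂ :=
  if h : 0 < N then
    tail (fun x : Fin N => v ^ ((N : ℤ) - 1 - 2 * (x : ℕ))) 2
      (rep (crossP N v) (crossN N v) 3 (ftw m) * opD N v ts) ⟨0, h⟩ ⟨0, h⟩ else 0

/-- JPD: the matrices and the operators -/
def S_JPD : Prop := ∀ (N : ℕ) (ts : List (Tb × Tb)) (ps : List (Polynomial ℂ × Polynomial ℂ))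
  (m : ℤ), 2 ≤ N →
  List.Forall₂ (fun t p => op N (vN N) t.1 = mx N (Polynomial.aeval (cas (vN N) (-1)) p.1) ∧
    op N (vN N) t.2 = mx N (Polynomial.aeval (cas (vN N) (-1)) p.2)) ts ps →
  JD ts m N (vN N) = JP N (vN N) (-1) m ps

/-- CND: continuity at the root of unity -/
def S_CND : Prop := ∀ (ts : List (Tb × Tb)) (m : ℤ) (N : ℕ), 1 ≤ N →
  ContinuousAt (JD ts m N) (vN N)

/-- the vertices of a ring of trees -/
noncomputable def tvl (ts : List (Tb × Tb)) : List (Vx × Vx) := ts.map fun p => (tv p.1, tv p.2)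

/-- no circles at the vertices of the ring -/
def NoC (ts : List (Tb × Tb)) : Prop := ∀ p ∈ ts, p.1.bl = false ∧ p.2.bl = false

/-- number of edges of all trees -/
def nel (ts : List (Tb × Tb)) : ℕ := (ts.map fun p => p.1.ne + p.2.ne).sum

/-- EXD: the exact formula for the ring of trees -/
def S_EXD : Prop := S_TRP → S_EXP → S_TPL → S_JPD → ∀ (N : ℕ) (ts : List (Tb × Tb)) (m : ℤ),
  2 ≤ N → ts ≠ [] → NoC ts →
  ‖JD ts m N (vN N)‖ = ((N : ℝ) ^ 2 / (2 * π)) ^ nel ts * ‖ES N (tvl ts) m‖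

/-- multiplication of the functions by numbers -/
noncomputable def scl (ls : List (Vx × Vx)) (e : List ((ℕ → ℂ) × (ℕ → ℂ))) : List (Vx × Vx) :=
  List.zipWith (fun p c => ((p.1.1, fun N ψ => p.1.2 N ψ * c.1 N),
    (p.2.1, fun N ψ => p.2.2 N ψ * c.2 N))) ls e

/-- SCL: the exact expression is multilinear -/
def S_SCL : Prop := ∀ (N : ℕ) (ls : List (Vx × Vx)) (e : List ((ℕ → ℂ) × (ℕ → ℂ))) (m : ℤ),
  1 ≤ N → ls.length = e.length →
  ES N (scl ls e) m = (e.map fun c => c.1 N * c.2 N).prod * ES N ls m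

/-! ### Part B: analysis -/

/-- KFV: the main part in terms of the kernel -/
def S_KFV : Prop := ∀ (N : ℕ) (ls : List (Vx × Vx)) (χ : ℂ), 2 ≤ N → ls ≠ [] → AnL ls →
  TmV N ls χ = ((N : ℂ) / (2 * π)) ^ (2 * ls.length) * XV ls N χ

/-- KFFV: the trace in terms of the full kernel -/
def S_KFFV : Prop := ∀ (N : ℕ) (ls : List (Vx × Vx)) (χ : ℂ), 2 ≤ N → ls ≠ [] → AnL ls →
  (∀ t : ℕ, 1 ≤ t → t < N → Ph N χ t ≠ 0) →
  TV N ls χ = ((N : ℂ) / (2 * π)) ^ (2 * ls.length) *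
    itI (cw (wl ls)) N (2 * ls.length)
      (fun ψ => WkF (2 * ls.length) N χ ψ * YP ls N ψ) 0

/-- TFBV: bounds of the traces by bounds of the kernels; the constant depends on the weights
only -/
def S_TFBV : Prop := S_KFFV → S_KFV → ∀ ws : List (ℤ × ℤ), ws ≠ [] → ∃ C : ℝ, 0 < C ∧
  ∀ (ls : List (Vx × Vx)), wl ls = ws → AnL ls →
  ∀ (N : ℕ) (χ : ℂ) (B B' Q : ℝ), 2 ≤ N → (∀ t : ℕ, 1 ≤ t → t < N → Ph N χ t ≠ 0) → 0 ≤ B' → B' ≤ B →
  0 ≤ Q →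
  (∀ ψ ψ' : ℂ, |ψ.re| ≤ π → |ψ.im| ≤ 1 / N → |ψ'.re| ≤ π → |ψ'.im| ≤ 1 / N →
    ‖kh N ψ ψ' χ‖ ≤ B ∧ ‖kF N ψ ψ' χ - kh N ψ ψ' χ‖ ≤ B') →
  (∀ j < 2 * ls.length, ∀ ψ : ℂ, |ψ.re| ≤ π → |ψ.im| ≤ 1 / N → ‖vy ls j N ψ‖ ≤ Q) →
  ‖TV N ls χ‖ ≤ C * (N : ℝ) ^ (4 * ls.length) * (B * Q) ^ (2 * ls.length) ∧
  ‖TV N ls χ - TmV N ls χ‖ ≤
    C * (N : ℝ) ^ (4 * ls.length) * (B ^ (2 * ls.length - 1) * B' * Q ^ (2 * ls.length))

/-- FAZV: bounds of the traces -/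
def S_FAZV : Prop := KBZc → KRZc → KAZc → S_TFBV → S_KFFV → S_KFV → S_S0P →
  ∀ (ls : List (Vx × Vx)) (m : ℤ), ls ≠ [] → SubL ls → ∀ ε : ℝ, 0 < ε → ∀ᶠ N : ℕ in atTop,
  (∀ p : ℕ, N / 3 ≤ p → 2 * p ≤ N →
    ‖deriv (fun χ => wE N m χ * TV N ls χ) (2 * π * p / N)‖ ≤
      Real.exp (N * (157 / 100 * ls.length + ε))) ∧
  ∀ χ : ℂ, |χ.re| ≤ 2 * π / 3 → |χ.im| ≤ 9 / 5 → Gap N χ →
    ‖TV N ls χ‖ ≤ Real.exp (N * (2 * ls.length * max (s0 χ).re bet + ε)) ∧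
    ‖TV N ls χ - TmV N ls χ‖ ≤
      Real.exp (N * ((2 * ls.length - 1) * max (s0 χ).re bet + bet + ε))

/-- THZV: bounds of the blocks -/
def S_THZV : Prop := S_TB0 → S_RHO → S_RHOT → ∀ ls : List (Vx × Vx), ls ≠ [] → SubL ls →
  ∀ ε : ℝ, 0 < ε → ∀ᶠ N : ℕ in atTop, ∀ p < N,
    (2 * p ≤ N → ‖ThV N ls p‖ ≤ Real.exp (N * (13 / 10 * ls.length + ε))) ∧
    (N ≤ 2 * p → ‖TV N ls (2 * π * p / N) - ThV N ls p‖ ≤
      Real.exp (N * (13 / 10 * ls.length + ε)))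

/-- the functions of the children: `F` is the growth rate, `F 0 = 0` -/
structure DG (R₀ B : ℝ) (Y : ℕ → ℂ → ℂ) (F : ℂ → ℂ) : Prop where
  sub : SubE Y
  F0 : F 0 = 0
  Fan : DifferentiableOn ℂ F (Rc R₀ R₀)
  Fev : ∀ ψ ∈ Rc R₀ R₀, F (-ψ) = F ψ
  Fbd : ∀ ψ ∈ Rc R₀ R₀, ‖F ψ‖ ≤ B
  Fconc : ∀ ψ ∈ Rc R₀ R₀, (deriv (deriv F) ψ).re ≤ 0
  mw : MW Y F (Rc R₀ R₀)

/-- the potential of the ring with the functions `F j`; the variable number `n` is `χ` -/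
noncomputable def SrF (s : ℂ → ℂ → ℂ → ℂ) (F : ℕ → ℂ → ℂ) (n : ℕ) (ψ : ℕ → ℂ) : ℂ :=
  Sr s n ψ + ∑ j ∈ range n, F j (ψ j)

/-- its partial derivatives -/
noncomputable def DrF (s : ℂ → ℂ → ℂ → ℂ) (F : ℕ → ℂ → ℂ) (n : ℕ) (j : ℕ) (ψ : ℕ → ℂ) : ℂ :=
  deriv (fun w => SrF s F n (Function.update ψ j w)) (ψ j)

/-- POTF: the ring has a potential -/
def S_POTF : Prop := ∀ (χ₀ : ℂ) (ρ₀ c C : ℝ) (s dl : ℂ → ℂ → ℂ → ℂ), bet ≤ (s0 χ₀).re →
  SDZ χ₀ ρ₀ c C s dl → ∀ R₀ B₀ : ℝ, 0 < R₀ → 0 < B₀ → ∀ n : ℕ, 2 ≤ n →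
  ∃ R c' B : ℝ, 0 < R ∧ R ≤ ρ₀ ∧ R ≤ R₀ ∧ 0 < c' ∧ 0 < B ∧
    ∀ (Y : ℕ → ℕ → ℂ → ℂ) (F : ℕ → ℂ → ℂ), (∀ j < n, DG R₀ B₀ (Y j) (F j)) →
      PotE (n + 1) n R c' B (bet / 4) (SrF (shz χ₀ s) F n) (DrF (shz χ₀ s) F n)

/-- the conclusion of XLF -/
def XLFc : Prop := ∀ (χ₀ : ℂ) (ρ₀ c C : ℝ), Zr χ₀ → bet ≤ (s0 χ₀).re → SDZ χ₀ ρ₀ c C szz dzz →
  ∀ R₀ B₀ : ℝ, 0 < R₀ → 0 < B₀ → ∀ k : ℕ, 1 ≤ k →
  ∃ R c' : ℝ, 0 < R ∧ R ≤ 1 ∧ R ≤ ρ₀ ∧ R ≤ R₀ ∧ 0 < c' ∧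
    ∃ B C' M : ℝ, 0 < B ∧ 0 < C' ∧ 0 < M ∧ ∀ (ls : List (Vx × Vx)) (F : ℕ → ℂ → ℂ), ls.length = k →
      (∀ j < 2 * k, DG R₀ B₀ (vy ls j) (F j)) →
      (∀ j < 2 * k, M ≤ |(cw (wl ls) j : ℝ)|) → ∃ (G : ℂ → ℂ) (z : ℂ → ℕ → ℂ),
        DifferentiableOn ℂ G (Rc R R) ∧
        (∀ χ ∈ Rc R R, ‖G χ‖ ≤ B ∧ (deriv (deriv G) χ).re ≤ -c') ∧
        MW (fun N χ => XV ls N (χ + χ₀)) G (Rc R R) ∧
        (∀ χ ∈ Rc R R, (∀ j < 2 * k, z χ j ∈ Rc (R / 2) (R / 2) ∧ 0 < (z χ j).im ∧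
            ‖z χ j‖ ≤ 1 / 10 ∧
          Complex.I * cw (wl ls) ((j + 1) % (2 * k)) * z χ ((j + 1) % (2 * k)) / (2 * π) +
            Complex.I + deriv (F ((j + 1) % (2 * k))) (z χ ((j + 1) % (2 * k))) +
            deriv (fun w => szz (z χ j) w (χ + χ₀)) (z χ ((j + 1) % (2 * k))) +
            deriv (fun w => szz w (z χ (((j + 1) % (2 * k) + 1) % (2 * k))) (χ + χ₀))
              (z χ ((j + 1) % (2 * k))) = 0) ∧
          deriv G χ = ∑ j ∈ range (2 * k),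
            deriv (fun w => szz (z χ j) (z χ ((j + 1) % (2 * k))) w) (χ + χ₀) ∧
          G χ = ∑ j ∈ range (2 * k), (Complex.I * cw (wl ls) j * z χ j ^ 2 / (4 * π) +
            Complex.I * z χ j + F j (z χ j) +
            szz (z χ j) (z χ ((j + 1) % (2 * k))) (χ + χ₀))) ∧
        ∀ m : ℝ, (∀ j < 2 * k, m ≤ |(cw (wl ls) j : ℝ)|) → 0 < m →
          (∀ χ ∈ Rc R R, ∀ j < 2 * k, ‖z χ j‖ ≤ C' / m) ∧
          ∀ χ ∈ Rc R R, ‖G χ - 2 * k * szz 0 0 (χ + χ₀)‖ ≤ C' / m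

/-- XLF: asymptotics of `XV` near `χ = χ₀` -/
def S_XLF : Prop := S_POTF → S_CRE → S_ELE → MWZc → KBZc → XLFc

/-- critical configurations near `χ₀`; `g j` is the derivative of the function of the children -/
def RCritF (s : ℂ → ℂ → ℂ → ℂ) (χ₀ : ℂ) (ρ : ℝ) (n : ℕ) (a : ℕ → ℤ) (g : ℕ → ℂ) (m : ℤ)
    (z : ℕ → ℂ) (χ : ℂ) : Prop :=
  χ ∈ Rz χ₀ ρ ∧
  (∀ j < n, z j ∈ Rc ρ ρ ∧ 0 < (z j).im ∧ ‖z j‖ ≤ 1 / 10 ∧
    Complex.I * a ((j + 1) % n) * z ((j + 1) % n) / (2 * π) + Complex.I + g ((j + 1) % n) +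
      deriv (fun w => s (z j) w χ) (z ((j + 1) % n)) +
      deriv (fun w => s w (z (((j + 1) % n + 1) % n)) χ) (z ((j + 1) % n)) = 0) ∧
  Complex.I * m * χ / π + Complex.I +
    ∑ j ∈ range n, deriv (fun w => s (z j) (z ((j + 1) % n)) w) χ = 0

/-- MAINF: the growth rate of the exact expression -/
def S_MAINF : Prop := ∀ (k : ℕ) (m : ℤ), 1 ≤ k → 0 ≤ m → ¬ (k = 1 ∧ m = 0) →
  ∃ (χ₀ : ℂ) (ρ₀ c C : ℝ), Zr χ₀ ∧ SDZ χ₀ ρ₀ c C szz dzz ∧
  ∀ R₀ B₀ ε : ℝ, 0 < R₀ → 0 < B₀ → 0 < ε → ∃ M : ℝ,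
    ∀ (ls : List (Vx × Vx)) (F : ℕ → ℂ → ℂ), ls.length = k →
    (∀ j < 2 * k, DG R₀ B₀ (vy ls j) (F j)) → (∀ j < 2 * k, M ≤ |(cw (wl ls) j : ℝ)|) →
    ∃ (z : ℕ → ℂ) (χ : ℂ),
      RCritF szz χ₀ ρ₀ (2 * k) (cw (wl ls)) (fun j => deriv (F j) (z j)) m z χ ∧
      (∀ j < 2 * k, z j ∈ Rc R₀ R₀ ∧ ‖z j‖ ≤ ε) ∧ ‖χ - χ₀‖ ≤ ε ∧
      0 < (RVal3 szz (2 * k) (cw (wl ls)) m z χ + ∑ j ∈ range (2 * k), F j (z j)).re ∧
      Tendsto (fun N : ℕ => Real.log ‖ES N ls m‖ / N) atTop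
        (𝓝 (RVal3 szz (2 * k) (cw (wl ls)) m z χ + ∑ j ∈ range (2 * k), F j (z j)).re)

/-! ### Part C: the trees -/

/-- TRU: the functions of the trees -/
def S_TRU : Prop := ∃ (ρ τ κ c : ℝ) (s dl : ℂ → ℂ → ℂ), KD ρ τ κ c s dl ∧ ∃ K : ℝ, 0 < K ∧
  ∀ D : ℕ, ∃ R₀ B₀ : ℝ, 0 < R₀ ∧ R₀ ≤ τ ∧ 0 < B₀ ∧ ∀ t : Tb, t.Below K → t.nc ≤ D →
    ∃ F : ℂ → ℂ,
      DG R₀ B₀ (fun N ψ => XX t N ψ * Complex.exp (-(N * F 0))) (fun ψ => F ψ - F 0) ∧
      ∀ ψ ∈ Rc ρ τ, ∃ p : PB, p.shape = t ∧ p.rz = ψ ∧ p.Crt s ρ τ ∧ p.vl s = F ψ ∧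
        HasDerivAt F (p.gs s) ψ

/-! ### Part D: angle structures -/

/-- the conditions at a crossing circle `C` of the ring with `w` half twists, between the edges of
the ring with the angles `f g F G` (below) and `f' g' F' G'` (above); `l` is the list of the edges
to the children of the vertex, in the order from above to below: the angles at `C` and those at the
child -/
structure VD (w : ℤ) (l : List (Fl × Fl)) (f g F G f' g' F' G' : Fl) : Prop where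
  /-- no children -/
  nil : l = [] → Pool.Agent.Y482.Chi.VX w f g F G f' g' F' G'
  /-- the edge between the third strand and the axis -/
  axis : f.b' + g.a' + F.a + G.a' + (f'.a' + g'.b' + F'.a' + G'.a) = 2 * π
  /-- the edge from `C` to the axis -/
  ca : g.c' + G.c + G.b' + (f'.c' + F'.c + F'.b') = 2 * π
  /-- the edge from `C` to the third strand -/
  cr : g.c + g.b' + G.c' + (f'.c + f'.b' + F'.c') = 2 * π
  /-- the edges between the two strands enclosed by `C` -/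
  first : ∀ y ∈ l.head?, f'.c + g'.a + F'.c + G'.b' + (2 * y.1.a' + (y.2.a + y.2.b')) = 2 * π
  gaps : l.IsChain Pool.Agent.W719.AR.Gap
  last : ∀ x ∈ l.getLast?, 2 * x.1.c + (x.2.a + x.2.b') + (f.a + g.c + F.b' + G.c) = 2 * π
  /-- the edges from `C` to the strands enclosed by `C` -/
  str : ∀ x ∈ l, g.a + g.a' + G.b = π - x.1.tw ∧ g.b + G.a + G.a' = π - x.1.tw ∧
    f'.a + f'.a' + F'.b = π + x.1.tw ∧ f'.b + F'.a + F'.a' = π + x.1.tw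
  /-- the rotation along two parallel copies of the filling slope of `C` is `4 π` -/
  fill : f'.cr + F'.cr - (g.cr + G.cr) + 2 * (l.map fun y => y.1.cr).sum =
    4 * π + w * (f'.tw + F'.tw)

/-- angle structures of the ring with the trees `y j` -/
structure DAng (n : ℕ) (m : ℤ) (y : ℕ → AB) (f g F G : ℕ → Fl) : Prop where
  pos : ∀ j < n, (f j).Pos ∧ (g j).Pos ∧ (F j).Pos ∧ (G j).Pos
  diag : ∀ j < n, (f j).b + (f j).c' + ((g j).b + (g j).c') = 2 * π ∧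
    (F j).b + (F j).c' + ((G j).b + (G j).c') = 2 * π
  tree : ∀ j < n, (y j).OK
  vert : ∀ j < n, VD (y ((j + 1) % n)).wt (y ((j + 1) % n)).fl (f j) (g j) (F j) (G j)
    (f ((j + 1) % n)) (g ((j + 1) % n)) (F ((j + 1) % n)) (G ((j + 1) % n))
  /-- the rotation along two parallel copies of the filling slope of the axis is `-4 π` -/
  fill : ∑ j ∈ range n, Pool.Agent.Y482.Chi.rho (f j) (g j) (F j) (G j) =
    -(4 * π + 2 * m * Pool.Agent.Y482.Chi.rlam (f 0) (g 0) (F 0) (G 0))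

/-- the volume -/
noncomputable def dVol (n : ℕ) (y : ℕ → AB) (f g F G : ℕ → Fl) : ℝ :=
  ∑ j ∈ range n, ((y j).vol + ((f j).vol + (g j).vol + (F j).vol + (G j).vol))

/-- GEOD: near `χ₀` the critical value is the maximal volume of the angle structures -/
def S_GEOD : Prop := S_S0P → ∀ (ρ τ κ cc : ℝ) (s dl : ℂ → ℂ → ℂ), KD ρ τ κ cc s dl →
  ∀ χ₀ : ℂ, Zr χ₀ → ∃ ε : ℝ, 0 < ε ∧ ∀ ρ₀ c C : ℝ, SDZ χ₀ ρ₀ c C szz dzz →
    ∀ (n : ℕ) (m : ℤ) (p : ℕ → PB) (χ : ℂ), 1 ≤ n →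
      (∀ j < n, (p j).bl = false ∧ (p j).Crt s ρ τ ∧ (p j).rz ∈ Rc ρ τ ∧ ‖(p j).rz‖ ≤ ε) →
      ‖χ - χ₀‖ ≤ ε →
      RCritF szz χ₀ ρ₀ n (fun j => (p j).wt) (fun j => (p j).gs s) m (fun j => (p j).rz) χ →
      IsGreatest {W : ℝ | ∃ (y : ℕ → AB) (f g F G : ℕ → Fl), (∀ j < n, (y j).shape = (p j).shape) ∧
          DAng n m y f g F G ∧ dVol n y f g F G = W}
        (2 * π * (RVal3 szz n (fun j => (p j).wt) m (fun j => (p j).rz) χ +
          ∑ j ∈ range n, (p j).vl s).re)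

/-! ### Part E: the growth rate -/

/-- the tree at the vertex number `j` -/
def tj (ts : List (Tb × Tb)) (j : ℕ) : Tb :=
  ((ts.map fun p => [p.1, p.2]).flatten).getD j (.vx false 0)

/-- FIND: the growth rate of the invariant is the maximal volume -/
def S_FIND : Prop := ∃ K : ℝ, 0 < K ∧ ∀ (k : ℕ) (m : ℤ) (D : ℕ), 1 ≤ k → 0 ≤ m →
  ¬ (k = 1 ∧ m = 0) → ∃ M : ℝ, ∀ ts : List (Tb × Tb), ts.length = k → NoC ts →
    (∀ p ∈ ts, p.1.Below K ∧ p.2.Below K ∧ p.1.nc ≤ D ∧ p.2.nc ≤ D ∧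
      M ≤ |(p.1.wt : ℝ)| ∧ M ≤ |(p.2.wt : ℝ)|) →
    ∃ V : ℝ, IsGreatest {W : ℝ | ∃ (y : ℕ → AB) (f g F G : ℕ → Fl),
        (∀ j < 2 * k, (y j).shape = tj ts j) ∧ DAng (2 * k) m y f g F G ∧
          dVol (2 * k) y f g F G = W} V ∧
      Tendsto (fun N : ℕ => 2 * π * (Real.log ‖JD ts m N (vN N)‖ / N)) atTop (𝓝 V)

end Pool.Agent.Y481.DR
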