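import Pool.Agent.Y481.DR.Defs
import Pool.Agent.Y482.GeoR

/-!
# The growth rate of the invariant of a ring of trees is the maximal volume
-/

set_option autoImplicit false

namespace Pool.Agent.Y481.DR

open Finset Filter Topology Metric
open Pool.Agent.W711.HT hiding XX
open Pool.Agent.Y472
open Pool.Agent.Y481 (itI cw wts)
open Pool.Agent.TH563.UV (Tb op XX PB AB)
open Pool.Agent.W719.AR (Fl)
open scoped Real

section lists

variable {α β : Type} (x₀ : α)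

/-- flattened pairs -/
lemma flat_len (ts : List (α × α)) :
    ((ts.map fun p => [p.1, p.2]).flatten).length = 2 * ts.length := by
  induction ts with
  | nil => rfl
  | cons p ts ih => simp [List.flatten_cons, ih]; ring

lemma flat_map (ts : List (α × α)) (h : α → β) :
    ((ts.map fun p => [h p.1, h p.2]).flatten) = ((ts.map fun p => [p.1, p.2]).flatten).map h := by
  induction ts with
  | nil => rfl
  | cons p ts ih => simp [List.flatten_cons, ih]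

lemma flat_mem (ts : List (α × α)) (P : α → Prop) (hP : ∀ p ∈ ts, P p.1 ∧ P p.2) :
    ∀ x ∈ (ts.map fun p => [p.1, p.2]).flatten, P x := by
  intro x hx
  simp only [List.mem_flatten, List.mem_map] at hx
  obtain ⟨l, ⟨p, hp, rfl⟩, hx⟩ := hx
  simp only [List.mem_cons, List.not_mem_nil, or_false] at hx
  rcases hx with rfl | rfl
  · exact (hP p hp).1
  · exact (hP p hp).2

lemma flat_get (ts : List (α × α)) (P : α → Prop) (hP : ∀ p ∈ ts, P p.1 ∧ P p.2) {j : ℕ}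
    (hj : j < 2 * ts.length) : P (((ts.map fun p => [p.1, p.2]).flatten).getD j x₀) := by
  have hj' : j < ((ts.map fun p => [p.1, p.2]).flatten).length := by rw [flat_len]; exact hj
  rw [List.getD_eq_getElem _ _ hj']
  exact flat_mem ts P hP _ (List.getElem_mem hj')

lemma flat_getD (ts : List (α × α)) (h : α → β) (y₀ : β) {j : ℕ} (hj : j < 2 * ts.length) :
    ((ts.map fun p => [h p.1, h p.2]).flatten).getD j y₀ =
      h (((ts.map fun p => [p.1, p.2]).flatten).getD j x₀) := by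
  have hj' : j < ((ts.map fun p => [p.1, p.2]).flatten).length := by rw [flat_len]; exact hj
  rw [flat_map, List.getD_eq_getElem _ _ (by rw [List.length_map]; exact hj'),
    List.getD_eq_getElem _ _ hj', List.getElem_map]

/-- products over the list are products over the range -/
lemma flat_prod (ts : List (α × α)) (h : α → ℝ) :
    (ts.map fun p => h p.1 * h p.2).prod =
      ∏ j ∈ range (2 * ts.length), h (((ts.map fun p => [p.1, p.2]).flatten).getD j x₀) := by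
  induction ts with
  | nil => simp
  | cons p ts ih =>
    rw [List.map_cons, List.prod_cons, ih, List.length_cons,
      show 2 * (ts.length + 1) = 2 * ts.length + 1 + 1 by ring, prod_range_succ', prod_range_succ']
    simp only [List.map_cons, List.flatten_cons, List.cons_append, List.nil_append,
      List.getD_cons_succ, List.getD_cons_zero]
    ring

lemma flat_sum (ts : List (α × α)) (h : α → ℝ) :
    (ts.map fun p => h p.1 + h p.2).sum =
      ∑ j ∈ range (2 * ts.length), h (((ts.map fun p => [p.1, p.2]).flatten).getD j x₀) := by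
  induction ts with
  | nil => simp
  | cons p ts ih =>
    rw [List.map_cons, List.sum_cons, ih, List.length_cons,
      show 2 * (ts.length + 1) = 2 * ts.length + 1 + 1 by ring, sum_range_succ', sum_range_succ']
    simp only [List.map_cons, List.flatten_cons, List.cons_append, List.nil_append,
      List.getD_cons_succ, List.getD_cons_zero]
    ring

end lists

lemma tj_get (ts : List (Tb × Tb)) (P : Tb → Prop) (hP : ∀ p ∈ ts, P p.1 ∧ P p.2) {j : ℕ}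
    (hj : j < 2 * ts.length) : P (tj ts j) := flat_get _ ts P hP hj

/-- the normalized vertices -/
noncomputable def nv (F : Tb → ℂ → ℂ) (t : Tb) : Vx :=
  (t.wt, fun N ψ => XX t N ψ * Complex.exp (-(N * F t 0)))

/-- the normalized list -/
noncomputable def nvl (F : Tb → ℂ → ℂ) (ts : List (Tb × Tb)) : List (Vx × Vx) :=
  ts.map fun p => (nv F p.1, nv F p.2)

lemma nvl_len (F : Tb → ℂ → ℂ) (ts : List (Tb × Tb)) : (nvl F ts).length = ts.length := by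
  simp [nvl]

/-- the factors -/
noncomputable def ev (F : Tb → ℂ → ℂ) (ts : List (Tb × Tb)) : List ((ℕ → ℂ) × (ℕ → ℂ)) :=
  ts.map fun p => (fun N => Complex.exp (-(N * F p.1 0)), fun N => Complex.exp (-(N * F p.2 0)))

lemma nvl_scl (F : Tb → ℂ → ℂ) (ts : List (Tb × Tb)) : nvl F ts = scl (tvl ts) (ev F ts) := by
  induction ts with
  | nil => rfl
  | cons p ts ih =>
    simp only [nvl, scl, tvl, ev, List.map_cons, List.zipWith_cons_cons] at ih ⊢
    rw [ih]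
    rfl

lemma cw_nvl (F : Tb → ℂ → ℂ) (ts : List (Tb × Tb)) {j : ℕ} (hj : j < 2 * ts.length) :
    cw (wl (nvl F ts)) j = (tj ts j).wt := by
  have h : (wl (nvl F ts)) = ts.map fun p => (p.1.wt, p.2.wt) := by
    simp [wl, nvl, nv]
  have h2 : ((ts.map fun p : Tb × Tb => (p.1.wt, p.2.wt)).map fun p : ℤ × ℤ => [p.1, p.2]) =
      ts.map fun p => [p.1.wt, p.2.wt] := by
    simp [List.map_map, Function.comp_def]
  rw [cw, wts, h, h2]
  exact flat_getD _ ts (fun t => t.wt) 0 hj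

lemma vy_nvl (F : Tb → ℂ → ℂ) (ts : List (Tb × Tb)) {j : ℕ} (hj : j < 2 * ts.length) :
    vy (nvl F ts) j = (nv F (tj ts j)).2 := by
  have h2 : ((nvl F ts).map fun p : Vx × Vx => [p.1.2, p.2.2]) =
      ts.map fun p => [(nv F p.1).2, (nv F p.2).2] := by
    simp [nvl, List.map_map, Function.comp_def]
  rw [vy, h2]
  exact flat_getD _ ts (fun t => (nv F t).2) _ hj

lemma shape_bl : ∀ p : PB, p.shape.bl = p.bl
  | .vx _ _ _ => rfl
  | .br t _ => shape_bl t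

lemma shape_wt : ∀ p : PB, p.shape.wt = p.wt
  | .vx _ _ _ => rfl
  | .br t _ => shape_wt t

/-- the product of the factors -/
lemma ev_prod (F : Tb → ℂ → ℂ) (ts : List (Tb × Tb)) (N : ℕ) :
    ‖((ev F ts).map fun c => c.1 N * c.2 N).prod‖ =
      Real.exp (-(N * ∑ j ∈ range (2 * ts.length), (F (tj ts j) 0).re)) := by
  have h1 : ‖((ev F ts).map fun c => c.1 N * c.2 N).prod‖ =
      (ts.map fun p => Real.exp (-(N * (F p.1 0).re)) * Real.exp (-(N * (F p.2 0).re))).prod := by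
    induction ts with
    | nil => simp [ev]
    | cons p ts ih =>
      simp only [ev, List.map_cons, List.prod_cons, norm_mul, Complex.norm_exp] at ih ⊢
      rw [ih]
      simp
  rw [h1, flat_prod (.vx false 0) ts (fun t => Real.exp (-(N * (F t 0).re))), ← Real.exp_sum,
    mul_sum, sum_neg_distrib]
  rfl

/-- congruence of critical configurations -/
lemma rcf_congr {s : ℂ → ℂ → ℂ → ℂ} {χ₀ : ℂ} {ρ : ℝ} {n : ℕ} {a a' : ℕ → ℤ} {g g' : ℕ → ℂ}
    {m : ℤ} {z z' : ℕ → ℂ} {χ : ℂ} (hn : 0 < n) (ha : ∀ j < n, a j = a' j)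
    (hg : ∀ j < n, g j = g' j) (hz : ∀ j < n, z j = z' j) (h : RCritF s χ₀ ρ n a g m z χ) :
    RCritF s χ₀ ρ n a' g' m z' χ := by
  obtain ⟨h1, h2, h3⟩ := h
  refine ⟨h1, fun j hj => ?_, ?_⟩
  · have hj1 : (j + 1) % n < n := Nat.mod_lt _ hn
    have hj2 : ((j + 1) % n + 1) % n < n := Nat.mod_lt _ hn
    rw [← hz j hj, ← hz _ hj1, ← hz _ hj2, ← ha _ hj1, ← hg _ hj1]
    exact h2 j hj
  · rw [← h3]
    congr 1
    refine sum_congr rfl fun j hj => ?_
    rw [hz j (mem_range.1 hj), hz _ (Nat.mod_lt _ hn)]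

lemma rval_congr {s : ℂ → ℂ → ℂ → ℂ} {n : ℕ} {a a' : ℕ → ℤ} {m : ℤ} {z z' : ℕ → ℂ} {χ : ℂ}
    (hn : 0 < n) (ha : ∀ j < n, a j = a' j) (hz : ∀ j < n, z j = z' j) :
    RVal3 s n a m z χ = RVal3 s n a' m z' χ := by
  unfold RVal3
  congr 1
  refine sum_congr rfl fun j hj => ?_
  rw [hz j (mem_range.1 hj), hz _ (Nat.mod_lt _ hn), ha j (mem_range.1 hj)]

/-! ### Reversal of the ring -/

lemma Rc_op (ρ τ : ℝ) : IsOpen (Rc ρ τ) := by
  have : Rc ρ τ = {z : ℂ | |z.re| < ρ} ∩ {z : ℂ | |z.im| < τ} := rfl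
  rw [this]
  exact (isOpen_lt (by fun_prop) continuous_const).inter (isOpen_lt (by fun_prop) continuous_const)

lemma Rz_op (χ₀ : ℂ) (ρ : ℝ) : IsOpen (Rz χ₀ ρ) := by
  have : Rz χ₀ ρ = (fun χ => χ - χ₀) ⁻¹' Rc ρ ρ := rfl
  rw [this]
  exact (Rc_op ρ ρ).preimage (by fun_prop)

/-- the index in the opposite order -/
def rv (n j : ℕ) : ℕ := (n - j) % n

lemma rv_lt {n : ℕ} (hn : 0 < n) (j : ℕ) : rv n j < n := Nat.mod_lt _ hn

lemma rv_succ {n j : ℕ} (hj : j < n) : rv n ((j + 1) % n) = n - 1 - j := by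
  unfold rv
  rcases Nat.lt_or_ge (j + 1) n with h | h
  · rw [Nat.mod_eq_of_lt h, Nat.mod_eq_of_lt (by omega)]
    omega
  · have : j + 1 = n := by omega
    rw [this, Nat.mod_self, Nat.sub_zero, Nat.mod_self]
    omega

lemma rv_eq {n j : ℕ} (hj : j < n) : rv n j = (n - 1 - j + 1) % n := by
  unfold rv
  congr 1
  omega

lemma sum_rv {M : Type*} [AddCommMonoid M] {n : ℕ} (hn : 0 < n) (F : ℕ → M) :
    ∑ j ∈ range n, F (rv n j) = ∑ j ∈ range n, F j := by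
  rw [← Pool.Agent.Y482.sum_succ_mod n hn F, ← sum_range_reflect (fun j => F ((j + 1) % n))]
  refine sum_congr rfl fun j hj => ?_
  rw [rv_eq (mem_range.1 hj)]

lemma sum_rv2 {M : Type*} [AddCommMonoid M] {n : ℕ} (F : ℕ → ℕ → M)
    (hF : ∀ i < n, F ((i + 1) % n) i = F i ((i + 1) % n)) :
    ∑ j ∈ range n, F (rv n j) (rv n ((j + 1) % n)) = ∑ j ∈ range n, F j ((j + 1) % n) := by
  rw [← sum_range_reflect (fun j => F j ((j + 1) % n))]
  refine sum_congr rfl fun j hj => ?_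
  have hj' := mem_range.1 hj
  rw [rv_succ hj', rv_eq hj', hF _ (by omega)]

lemma rcf_rev {χ₀ : ℂ} {ρ₀ c C : ℝ} {s dl : ℂ → ℂ → ℂ → ℂ} (hSD : SDZ χ₀ ρ₀ c C s dl) {n : ℕ}
    (hn : 0 < n) {a : ℕ → ℤ} {g : ℕ → ℂ} {m : ℤ} {z : ℕ → ℂ} {χ : ℂ}
    (h : RCritF s χ₀ ρ₀ n a g m z χ) :
    RCritF s χ₀ ρ₀ n (fun j => a (rv n j)) (fun j => g (rv n j)) m (fun j => z (rv n j)) χ := by
  obtain ⟨h1, h2, h3⟩ := h
  have hz : ∀ j < n, z j ∈ Rc ρ₀ ρ₀ := fun j hj => (h2 j hj).1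
  have hd : ∀ x ∈ Rc ρ₀ ρ₀, ∀ y ∈ Rc ρ₀ ρ₀,
      deriv (fun w => s x w χ) y = deriv (fun w => s w x χ) y := by
    intro x hx y hy
    refine Filter.EventuallyEq.deriv_eq ?_
    filter_upwards [(Rc_op ρ₀ ρ₀).mem_nhds hy] with w hw
    exact hSD.sym x hx w hw χ h1
  have hdc : ∀ x ∈ Rc ρ₀ ρ₀, ∀ y ∈ Rc ρ₀ ρ₀,
      deriv (fun w => s x y w) χ = deriv (fun w => s y x w) χ := by
    intro x hx y hy
    refine Filter.EventuallyEq.deriv_eq ?_
    filter_upwards [(Rz_op χ₀ ρ₀).mem_nhds h1] with w hw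
    exact hSD.sym x hx y hy w hw
  refine ⟨h1, fun j hj => ?_, ?_⟩
  · have hj1 : (j + 1) % n < n := Nat.mod_lt _ hn
    obtain ⟨q1, q2, q3, -⟩ := h2 _ (rv_lt hn j)
    refine ⟨q1, q2, q3, ?_⟩
    have e1 : rv n (((j + 1) % n + 1) % n) = n - 1 - (j + 1) % n := rv_succ hj1
    have e2 : rv n ((j + 1) % n) = (n - 1 - (j + 1) % n + 1) % n := rv_eq hj1
    have e3 : rv n j = (rv n ((j + 1) % n) + 1) % n := by
      rw [rv_eq hj, rv_succ hj]
    have hi : n - 1 - (j + 1) % n < n := by omega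
    obtain ⟨-, -, -, h4⟩ := h2 _ hi
    rw [← e2, ← e3] at h4
    beta_reduce
    rw [e1]
    have y1 := hz _ (rv_lt hn ((j + 1) % n))
    have y2 := hz _ (rv_lt hn j)
    have y3 := hz _ hi
    rw [hd _ y2 _ y1, ← hd _ y3 _ y1]
    linear_combination h4
  · rw [← h3]
    congr 1
    exact sum_rv2 (fun x y => deriv (fun w => s (z x) (z y) w) χ)
      (fun i hi => hdc _ (hz _ (Nat.mod_lt _ hn)) _ (hz _ hi))

lemma rval_rev {χ₀ : ℂ} {ρ₀ c C : ℝ} {s dl : ℂ → ℂ → ℂ → ℂ} (hSD : SDZ χ₀ ρ₀ c C s dl) {n : ℕ}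
    (hn : 0 < n) {a : ℕ → ℤ} {g : ℕ → ℂ} {m : ℤ} {z : ℕ → ℂ} {χ : ℂ}
    (h : RCritF s χ₀ ρ₀ n a g m z χ) :
    RVal3 s n (fun j => a (rv n j)) m (fun j => z (rv n j)) χ = RVal3 s n a m z χ := by
  unfold RVal3
  congr 1
  have e : ∀ (a' : ℕ → ℤ) (z' : ℕ → ℂ), ∑ j ∈ range n, (Complex.I * a' j * z' j ^ 2 / (4 * π) +
      Complex.I * z' j + s (z' j) (z' ((j + 1) % n)) χ) =
      ∑ j ∈ range n, (Complex.I * a' j * z' j ^ 2 / (4 * π) + Complex.I * z' j) +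
      ∑ j ∈ range n, s (z' j) (z' ((j + 1) % n)) χ := fun _ _ => sum_add_distrib
  rw [e, e]
  congr 1
  · exact sum_rv hn fun j => Complex.I * a j * z j ^ 2 / (4 * π) + Complex.I * z j
  · exact sum_rv2 (fun x y => s (z x) (z y) χ)
      (fun i hi => hSD.sym _ (h.2.1 _ (Nat.mod_lt _ hn)).1 _ (h.2.1 _ hi).1 χ h.1)

/-- the growth rate; critical configurations -/
theorem find_core (hEXD : ∀ (N : ℕ) (ts : List (Tb × Tb)) (m : ℤ), 2 ≤ N → ts ≠ [] → NoC ts →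
      ‖JD ts m N (vN N)‖ = ((N : ℝ) ^ 2 / (2 * π)) ^ nel ts * ‖ES N (tvl ts) m‖)
    (hSCL : S_SCL) (hMAIN : S_MAINF) (hTRU : S_TRU) (hGEOD : S_GEOD) (hS0P : S_S0P) :
    ∃ K : ℝ, 0 < K ∧ ∀ (k : ℕ) (m : ℤ) (D : ℕ), 1 ≤ k → 0 ≤ m → ¬ (k = 1 ∧ m = 0) → ∃ M : ℝ,
    ∀ ts : List (Tb × Tb), ts.length = k → NoC ts →
    (∀ p ∈ ts, p.1.Below K ∧ p.2.Below K ∧ p.1.nc ≤ D ∧ p.2.nc ≤ D ∧
      M ≤ |(p.1.wt : ℝ)| ∧ M ≤ |(p.2.wt : ℝ)|) →
    ∃ V : ℝ, (∀ r : ℕ → ℕ, (r = fun j => j) ∨ (r = fun j => rv (2 * k) j) →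
      IsGreatest {W : ℝ | ∃ (y : ℕ → AB) (f g F G : ℕ → Fl),
        (∀ j < 2 * k, (y j).shape = tj ts (r j)) ∧ DAng (2 * k) m y f g F G ∧
          dVol (2 * k) y f g F G = W} V) ∧
      Tendsto (fun N : ℕ => 2 * π * (Real.log ‖JD ts m N (vN N)‖ / N)) atTop (𝓝 V) := by
  obtain ⟨ρ, τ, κ, cc, s, dl, hKD, K, hK, hTr⟩ := hTRU
  refine ⟨K, hK, fun k m D hk hm hkm => ?_⟩
  obtain ⟨χ₀, ρ₀, c, C, hZr, hSD, hM⟩ := hMAIN k m hk hm hkm
  obtain ⟨R₀, B₀, hR₀, hR₀τ, hB₀, hT⟩ := hTr D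
  obtain ⟨ε, hε, hgeo⟩ := hGEOD hS0P ρ τ κ cc s dl hKD χ₀ hZr
  obtain ⟨M, hMM⟩ := hM R₀ B₀ ε hR₀ hB₀ hε
  choose! F hF1 hF2 using fun (t : Tb) (h : t.Below K ∧ t.nc ≤ D) => hT t h.1 h.2
  refine ⟨M, fun ts hlen hNC hts => ?_⟩
  have hl2 : 2 * ts.length = 2 * k := by rw [hlen]
  -- the properties of the trees
  have hP : ∀ j < 2 * k, ((tj ts j).Below K ∧ (tj ts j).nc ≤ D) ∧ M ≤ |((tj ts j).wt : ℝ)| ∧
      (tj ts j).bl = false := by
    intro j hj
    refine tj_get ts (fun t => (t.Below K ∧ t.nc ≤ D) ∧ M ≤ |(t.wt : ℝ)| ∧ t.bl = false)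
      (fun p hp => ?_) (by omega)
    obtain ⟨h1, h2, h3, h4, h5, h6⟩ := hts p hp
    exact ⟨⟨⟨h1, h3⟩, h5, (hNC p hp).1⟩, ⟨⟨h2, h4⟩, h6, (hNC p hp).2⟩⟩
  have hvy : ∀ j < 2 * k, vy (nvl F ts) j =
      fun N ψ => XX (tj ts j) N ψ * Complex.exp (-(N * F (tj ts j) 0)) := by
    intro j hj
    rw [vy_nvl F ts (by omega)]
    rfl
  have hcw : ∀ j < 2 * k, cw (wl (nvl F ts)) j = (tj ts j).wt := fun j hj =>
    cw_nvl F ts (by omega)
  obtain ⟨z, χ, hRC, hz, hχ, hpos, hlim⟩ := hMM (nvl F ts)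
    (fun j ψ => F (tj ts j) ψ - F (tj ts j) 0) (by rw [nvl_len, hlen])
    (fun j hj => by rw [hvy j hj]; exact hF1 _ (hP j hj).1)
    (fun j hj => by rw [hcw j hj]; exact (hP j hj).2.1)
  have hsub : Rc R₀ R₀ ⊆ Rc ρ τ := by
    intro w hw
    exact ⟨hw.1.trans_le (hR₀τ.trans hKD.hτ.2), hw.2.trans_le hR₀τ⟩
  -- the critical configurations of the trees
  have hex : ∀ j, ∃ p : PB, j < 2 * k → p.shape = tj ts j ∧ p.rz = z j ∧ p.Crt s ρ τ ∧
      p.vl s = F (tj ts j) (z j) ∧ HasDerivAt (F (tj ts j)) (p.gs s) (z j) := by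
    intro j
    by_cases hj : j < 2 * k
    · obtain ⟨p, hp⟩ := hF2 _ (hP j hj).1 (z j) (hsub (hz j hj).1)
      exact ⟨p, fun _ => hp⟩
    · exact ⟨.vx false 0 0, fun h => absurd h hj⟩
  choose p hp using hex
  have hn : 0 < 2 * k := by omega
  have hg : ∀ j < 2 * k, deriv (fun ψ => F (tj ts j) ψ - F (tj ts j) 0) (z j) = (p j).gs s := by
    intro j hj
    rw [deriv_sub_const]
    exact (hp j hj).2.2.2.2.deriv
  have hwt : ∀ j < 2 * k, cw (wl (nvl F ts)) j = (p j).wt := by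
    intro j hj
    rw [hcw j hj, ← (hp j hj).1, shape_wt]
  have hRC' : RCritF szz χ₀ ρ₀ (2 * k) (fun j => (p j).wt) (fun j => (p j).gs s) m
      (fun j => (p j).rz) χ :=
    rcf_congr hn hwt hg (fun j hj => (hp j hj).2.1.symm) hRC
  have hgen : ∀ r : ℕ → ℕ, (∀ j < 2 * k, r j < 2 * k) →
      RCritF szz χ₀ ρ₀ (2 * k) (fun j => (p (r j)).wt) (fun j => (p (r j)).gs s) m
        (fun j => (p (r j)).rz) χ →
      IsGreatest {W : ℝ | ∃ (y : ℕ → AB) (f g F G : ℕ → Fl),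
        (∀ j < 2 * k, (y j).shape = tj ts (r j)) ∧ DAng (2 * k) m y f g F G ∧
          dVol (2 * k) y f g F G = W}
        (2 * π * (RVal3 szz (2 * k) (fun j => (p (r j)).wt) m (fun j => (p (r j)).rz) χ +
          ∑ j ∈ range (2 * k), (p (r j)).vl s).re) := by
    intro r hr hR
    have hgr := hgeo ρ₀ c C hSD (2 * k) m (fun j => p (r j)) χ (by omega) (fun j hj => ⟨by
        rw [← shape_bl, (hp _ (hr j hj)).1]; exact (hP _ (hr j hj)).2.2,
        (hp _ (hr j hj)).2.2.1, by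
        rw [(hp _ (hr j hj)).2.1]; exact hsub (hz _ (hr j hj)).1, by
        rw [(hp _ (hr j hj)).2.1]; exact (hz _ (hr j hj)).2⟩) hχ hR
    have hset : {W : ℝ | ∃ (y : ℕ → AB) (f g F G : ℕ → Fl),
        (∀ j < 2 * k, (y j).shape = tj ts (r j)) ∧ DAng (2 * k) m y f g F G ∧
          dVol (2 * k) y f g F G = W} =
        {W : ℝ | ∃ (y : ℕ → AB) (f g F G : ℕ → Fl), (∀ j < 2 * k, (y j).shape = (p (r j)).shape) ∧
          DAng (2 * k) m y f g F G ∧ dVol (2 * k) y f g F G = W} := by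
      ext W
      constructor
      · rintro ⟨y, f, g, F', G, h1, h2⟩
        exact ⟨y, f, g, F', G, fun j hj => by rw [h1 j hj, (hp _ (hr j hj)).1], h2⟩
      · rintro ⟨y, f, g, F', G, h1, h2⟩
        exact ⟨y, f, g, F', G, fun j hj => by rw [h1 j hj, (hp _ (hr j hj)).1], h2⟩
    rw [hset]
    exact hgr
  set V : ℝ := 2 * π * (RVal3 szz (2 * k) (fun j => (p j).wt) m (fun j => (p j).rz) χ +
    ∑ j ∈ range (2 * k), (p j).vl s).re with hV
  refine ⟨V, ?_, ?_⟩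
  · rintro r (rfl | rfl)
    · exact hgen (fun j => j) (fun j hj => hj) hRC'
    · have h1 := hgen (fun j => rv (2 * k) j) (fun j _ => rv_lt hn j) (rcf_rev hSD hn hRC')
      have h2 := rval_rev hSD hn hRC'
      have h3 : ∑ j ∈ range (2 * k), (p (rv (2 * k) j)).vl s = ∑ j ∈ range (2 * k), (p j).vl s :=
        sum_rv hn fun j => (p j).vl s
      rw [h2, h3] at h1
      exact h1
  -- the limit
  set L : ℝ := (RVal3 szz (2 * k) (cw (wl (nvl F ts))) m z χ +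
    ∑ j ∈ range (2 * k), (F (tj ts j) (z j) - F (tj ts j) 0)).re with hL
  set S : ℝ := ∑ j ∈ range (2 * k), (F (tj ts j) 0).re with hS
  have hVL : V = 2 * π * (S + L) := by
    rw [hV, hL, hS, rval_congr hn hwt (fun j hj => ((hp j hj).2.1.symm : z j = (p j).rz))]
    congr 1
    have e1 : ∑ j ∈ range (2 * k), (p j).vl s = ∑ j ∈ range (2 * k), F (tj ts j) (z j) :=
      sum_congr rfl fun j hj => (hp j (mem_range.1 hj)).2.2.2.1
    rw [e1, sum_sub_distrib, Complex.add_re, Complex.add_re, Complex.sub_re, ← Complex.re_sum,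
      Complex.re_sum, Complex.re_sum]
    ring
  have hne : ∀ᶠ N : ℕ in atTop, ‖ES N (nvl F ts) m‖ ≠ 0 := by
    have h1 : ∀ᶠ N : ℕ in atTop, 0 < Real.log ‖ES N (nvl F ts) m‖ / N :=
      hlim.eventually (lt_mem_nhds hpos)
    filter_upwards [h1] with N h h0
    rw [h0, Real.log_zero, zero_div] at h
    exact lt_irrefl _ h
  have hlog : ∀ᶠ N : ℕ in atTop, 2 * π * (Real.log ‖JD ts m N (vN N)‖ / N) =
      2 * π * (nel ts * (Real.log ((N : ℝ) ^ 2 / (2 * π)) / N) + S +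
        Real.log ‖ES N (nvl F ts) m‖ / N) := by
    filter_upwards [hne, eventually_ge_atTop 2] with N hN hN2
    have hN0 : (0 : ℝ) < N := by exact_mod_cast (by omega : 0 < N)
    have hts0 : ts ≠ [] := by
      intro h
      rw [h] at hlen
      simp at hlen
      omega
    have hA : ‖ES N (nvl F ts) m‖ = Real.exp (-(N * S)) * ‖ES N (tvl ts) m‖ := by
      rw [nvl_scl, hSCL N (tvl ts) (ev F ts) m (by omega) (by simp [tvl, ev]), norm_mul, ev_prod,
        hl2]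
    have hB : ‖ES N (tvl ts) m‖ ≠ 0 := by
      intro h
      rw [hA, h, mul_zero] at hN
      exact hN rfl
    have hq : (0 : ℝ) < (N : ℝ) ^ 2 / (2 * π) := by positivity
    have hlA : Real.log ‖ES N (nvl F ts) m‖ = -(N * S) + Real.log ‖ES N (tvl ts) m‖ := by
      rw [hA, Real.log_mul (Real.exp_ne_zero _) hB, Real.log_exp]
    rw [hEXD N ts m hN2 hts0 hNC, Real.log_mul (pow_ne_zero _ hq.ne') hB, Real.log_pow, hlA]
    field_simp
    ring
  have hsm : Tendsto (fun N : ℕ => Real.log ((N : ℝ) ^ 2 / (2 * π)) / N) atTop (𝓝 0) := by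
    have h1 : Tendsto (fun N : ℕ => Real.log (N : ℝ) / N) atTop (𝓝 0) :=
      (Real.isLittleO_log_id_atTop.tendsto_div_nhds_zero).comp tendsto_natCast_atTop_atTop
    have h2 : Tendsto (fun N : ℕ => Real.log (2 * π) / (N : ℝ)) atTop (𝓝 0) :=
      tendsto_const_nhds.div_atTop tendsto_natCast_atTop_atTop
    have h3 := (h1.const_mul 2).sub h2
    simp only [mul_zero, sub_zero] at h3
    refine h3.congr' ?_
    filter_upwards [eventually_ge_atTop 1] with N hN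
    have hN0 : (0 : ℝ) < N := by exact_mod_cast (by omega : 0 < N)
    rw [Real.log_div (by positivity) (by positivity), Real.log_pow]
    push_cast
    ring
  rw [hVL]
  refine Tendsto.congr' (hlog.mono fun N h => h.symm) ?_
  have h4 := (((hsm.const_mul (nel ts : ℝ)).add_const S).add hlim).const_mul (2 * π)
  simpa using h4

/-- the growth rate -/
theorem find_of (hEXD : ∀ (N : ℕ) (ts : List (Tb × Tb)) (m : ℤ), 2 ≤ N → ts ≠ [] → NoC ts →
      ‖JD ts m N (vN N)‖ = ((N : ℝ) ^ 2 / (2 * π)) ^ nel ts * ‖ES N (tvl ts) m‖)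
    (hSCL : S_SCL) (hMAIN : S_MAINF) (hTRU : S_TRU) (hGEOD : S_GEOD) (hS0P : S_S0P) : S_FIND := by
  obtain ⟨K, hK, h⟩ := find_core hEXD hSCL hMAIN hTRU hGEOD hS0P
  refine ⟨K, hK, fun k m D hk hm hkm => ?_⟩
  obtain ⟨M, hM⟩ := h k m D hk hm hkm
  refine ⟨M, fun ts h1 h2 h3 => ?_⟩
  obtain ⟨V, h4, h5⟩ := hM ts h1 h2 h3
  exact ⟨V, h4 _ (Or.inl rfl), h5⟩

/-- the growth rate; the trees are numbered upwards -/
def S_FINDU : Prop := ∃ K : ℝ, 0 < K ∧ ∀ (k : ℕ) (m : ℤ) (D : ℕ), 1 ≤ k → 0 ≤ m →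
  ¬ (k = 1 ∧ m = 0) → ∃ M : ℝ, ∀ ts : List (Tb × Tb), ts.length = k → NoC ts →
    (∀ p ∈ ts, p.1.Below K ∧ p.2.Below K ∧ p.1.nc ≤ D ∧ p.2.nc ≤ D ∧
      M ≤ |(p.1.wt : ℝ)| ∧ M ≤ |(p.2.wt : ℝ)|) →
    ∃ V : ℝ, IsGreatest {W : ℝ | ∃ (y : ℕ → AB) (f g F G : ℕ → Fl),
        (∀ j < 2 * k, (y j).shape = tj ts ((2 * k - j) % (2 * k))) ∧ DAng (2 * k) m y f g F G ∧
          dVol (2 * k) y f g F G = W} V ∧
      Tendsto (fun N : ℕ => 2 * π * (Real.log ‖JD ts m N (vN N)‖ / N)) atTop (𝓝 V)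

theorem findu_of (hEXD : ∀ (N : ℕ) (ts : List (Tb × Tb)) (m : ℤ), 2 ≤ N → ts ≠ [] → NoC ts →
      ‖JD ts m N (vN N)‖ = ((N : ℝ) ^ 2 / (2 * π)) ^ nel ts * ‖ES N (tvl ts) m‖)
    (hSCL : S_SCL) (hMAIN : S_MAINF) (hTRU : S_TRU) (hGEOD : S_GEOD) (hS0P : S_S0P) :
    S_FINDU := by
  obtain ⟨K, hK, h⟩ := find_core hEXD hSCL hMAIN hTRU hGEOD hS0P
  refine ⟨K, hK, fun k m D hk hm hkm => ?_⟩
  obtain ⟨M, hM⟩ := h k m D hk hm hkm
  refine ⟨M, fun ts h1 h2 h3 => ?_⟩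
  obtain ⟨V, h4, h5⟩ := hM ts h1 h2 h3
  exact ⟨V, h4 _ (Or.inr rfl), h5⟩

end Pool.Agent.Y481.DR
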