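import Pool.Agent.Y481.DR.Exact
import Pool.Agent.Y481.DR.Find
import Pool.Agent.Y481.DR.Geo
import Pool.Agent.Y333.DR.Tru
import Pool.Agent.Y710.CG.S0P
import Pool.Agent.Y529.DR.V3
import Pool.Agent.Y978.DR.PotF
import Pool.Agent.Y710.DR.XLF
import Pool.Agent.Y899.DR.KFV
import Pool.Agent.Y48.DR.TFBV
import Pool.Agent.Y48.DR.FAZV
import Pool.Agent.Y319.DR.Thzv

/-!
# Rings of trees: the growth rate of the invariant is the maximal volume
-/

set_option autoImplicit false

namespace Pool.Agent.Y481.DR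

/-- the growth rate of the exact expression -/
theorem mainf : S_MAINF := Pool.Agent.Y529.DR.mainf Pool.Agent.Y978.DR.potf Pool.Agent.Y710.DR.xlf
  Pool.Agent.Y899.DR.t_KFV Pool.Agent.Y899.DR.t_KFFV Pool.Agent.Y48.DR.t_TFBV
  Pool.Agent.Y48.DR.t_FAZV Pool.Agent.Y319.DR.thzv

/-- the growth rate of the invariant -/
theorem findu : S_FINDU := findu_of exd' Pool.Agent.Y407.DR.t_scl mainf Pool.Agent.Y333.DR.tru geod
  Pool.Agent.Y710.CG.s0p

end Pool.Agent.Y481.DR
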