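import Pool.Agent.Y481.DR.Defs
import Pool.Agent.Y484.DR.Trp
import Pool.Agent.Y317.DR.Exp
import Pool.Agent.Y624.DR.Tpl
import Pool.Agent.Y884.DR.JpdCnd
import Pool.Agent.Y407.DR.Exd
import Pool.Agent.Y785.DR.Mird

/-!
# Rings of trees: the exact formula, continuity and mirror images
-/

set_option autoImplicit false

namespace Pool.Agent.Y481.DR

open Pool.Agent.W711.HT hiding XX
open Pool.Agent.TH563.UV (Tb)
open scoped Real

/-- the exact formula -/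
theorem exd' : ∀ (N : ℕ) (ts : List (Tb × Tb)) (m : ℤ), 2 ≤ N → ts ≠ [] → NoC ts →
    ‖JD ts m N (vN N)‖ = ((N : ℝ) ^ 2 / (2 * π)) ^ nel ts * ‖ES N (tvl ts) m‖ :=
  Pool.Agent.Y407.DR.t_exd Pool.Agent.Y484.DR.trp Pool.Agent.Y317.DR.exp Pool.Agent.Y624.DR.tpl
    Pool.Agent.Y884.DR.jpd

/-- continuity -/
theorem cnd' (ts : List (Tb × Tb)) (m : ℤ) (N : ℕ) (hN : 1 ≤ N) :
    ContinuousAt (JD ts m N) (vN N) := Pool.Agent.Y884.DR.cnd ts m N hN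

/-- mirror images -/
theorem mir (ts : List (Tb × Tb)) (m : ℤ) (N : ℕ) (hN : 2 ≤ N) (hts : ts ≠ []) (hc : NoC ts) :
    ‖JD (ts.map fun p => (Pool.Agent.TH563.UV.ngb p.1, Pool.Agent.TH563.UV.ngb p.2)) (-m) N
      (vN N)‖ = ‖JD ts m N (vN N)‖ :=
  Pool.Agent.Y785.DR.mird_of exd' N ts m hN hts hc

end Pool.Agent.Y481.DR
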